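import Pool.Agent.R992.AC.Main

/-!
# Dense ordinary reduction of abelian covers of the line with transcendental branch points

Let `k` be a field of characteristic `0` and `X → P¹` a connected abelian cover over (an algebraic
closure of) `k` with group `G`. Its finite branch points are `l_1, …, l_r` (fixed) and `t_s`, `s ∈ σ`
(moving), with inertia generators `g_j, h_s ∈ G`; the inertia generator over `∞` is minus their sum.
For example the curve `y ^ n = ∏ (x - t_s) ^ (b_s) ∏ (x - l_j) ^ (a_j)`, with `G = ℤ/n`, `g_j = a_j`,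
`h_s = b_s`. Suppose that the `t_s` are algebraically independent over `ℚ(l_1, …, l_r)` and that the
`h_s` generate `G` (for `y ^ n = (x - t) ∏ (x - l_j) ^ (a_j)`: `t` is transcendental over
`ℚ(l_1, …, l_r)`, and the `l_j` are arbitrary, for example algebraic).

**Theorem.** For finitely many such covers `X_i` (groups `G_i`, exponents dividing `n_i`) let `A ⊂ k` be
a finitely generated ring over which they are defined, `c ≠ 0` in `A`. For all large primes `p ≡ 1`
modulo all `n_i` (so for infinitely many primes) there is a closed point of `Spec A` of characteristic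
`p` with `c ≠ 0` at which the Hasse-Witt matrices of all the nontrivial characters of all the covers are
invertible.

Meaning. Let `n` be a multiple of the exponent of `G`. For a character `χ : G → ℤ/n` let
`f_χ = ∏ (x - t_s) ^ χ(h_s) ∏ (x - l_j) ^ χ(g_j)`, the exponents in `{0, …, n - 1}`, and
`w_χ ^ n = f_χ`. The `χ`-part of the space of holomorphic differentials has the basis
`x ^ j dx / w_χ`, `0 ≤ j < d_χ = (deg f_χ - 1) / n` (rounded down). For `p ≡ 1` modulo `n` the Cartier
operator preserves it: `C(u dx / w_χ) = C(u f_χ ^ ((p - 1) / n) dx) / w_χ`, and its matrix is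
`hasseWitt p n d_χ f_χ` (up to `p`-th roots). So if the reduction of `X` is smooth it is ordinary if and
only if these matrices are invertible for all `χ ≠ 0`. Products of ordinary varieties are ordinary. So
the closed points at which the product of the `X_i` is ordinary are dense in `Spec A`.

Proof. In characteristic `p`, let `K(χ)` be the space of the holomorphic differentials in the `χ`-part
killed by the Cartier operator.
* Duality (`dual`): if `K(χ) ≠ 0` then `K(χ⁻¹) ≠ 0`. If `ω = u dx / w_χ` is killed by the Cartier operator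
  then it has an antiderivative `G` on each affine piece, and the difference of two of them is a `p`-th
  power which is a class in `H¹(O)` killed by Frobenius. In terms of polynomials: a vector of divided
  differences of `G` is a left null vector of the matrix of `χ⁻¹`.
* One moving point `t` (`pairing`): by the sum of residues of the product of an antiderivative of
  `ω ∈ K(χ)` with the derivative with respect to `t` of `ω' ∈ K(χ⁻¹)` one has `ω(t) ω'(t) = 0`. So all
  elements of `K(χ)` or all elements of `K(χ⁻¹)` vanish at `t`. Taking derivatives with respect to `t`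
  they vanish at `t` to a high order, so they are zero, and by duality both spaces are zero.
* The theorem of Chevalley and the Jacobson property of `A` give the closed points.

For `n = 2` (`χ = χ⁻¹`) this is the starting result `TranscendentalBranchPoint`.
-/

set_option autoImplicit false

open Polynomial

namespace Pool.Agent.Results.MP_adc574_ag.AbelianCovers

/-- The Hasse-Witt (Cartier-Manin) matrix of the differentials `x ^ j dx / w`, `0 ≤ j < d`,
`w ^ n = f`, for `p ≡ 1` modulo `n`: the entry with indices `i, j` (from `0`) is the coefficient of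
`x ^ (p (i + 1) - (j + 1))` in `f ^ ((p - 1) / n)`, written as the coefficient of `x ^ (p (i + 1))` in
`x ^ (j + 1) f ^ ((p - 1) / n)`. -/
noncomputable def hasseWitt {R : Type*} [CommRing R] (p n d : ℕ) (f : R[X]) :
    Matrix (Fin d) (Fin d) R :=
  Matrix.of fun i j => (X ^ ((j : ℕ) + 1) * f ^ ((p - 1) / n)).coeff (p * ((i : ℕ) + 1))

/-- The number `d_χ = (deg f_χ - 1) / n` (rounded down) for the character `χ`; `h`, `g` are the inertia
generators at the moving and at the fixed finite branch points. -/
def dimension {G σ : Type*} [AddCommGroup G] [Fintype σ] {n r : ℕ} (h : σ → G) (g : Fin r → G)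
    (χ : G →+ ZMod n) : ℕ :=
  ((∑ s, (χ (h s)).val + ∑ j, (χ (g j)).val) - 1) / n

/-- The Hasse-Witt matrices at the closed point `M` of all nontrivial characters of the cover with
inertia generators `h`, `g` are invertible; `f χ` is the polynomial `f_χ`. -/
def OrdinaryAt {G σ : Type*} [AddCommGroup G] [Fintype σ] {n r : ℕ} (h : σ → G) (g : Fin r → G)
    {A : Type*} [CommRing A] (f : (G →+ ZMod n) → A[X]) (p : ℕ) (M : Ideal A) : Prop :=
  ∀ χ : G →+ ZMod n, χ ≠ 0 →
    (hasseWitt p n (dimension h g χ) ((f χ).map (Ideal.Quotient.mk M))).det ≠ 0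

theorem result {k σ ι : Type*} [Fintype σ] [Fintype ι] [Field k] [CharZero k]
    -- finitely many abelian covers of the line, with groups `G i` of exponent dividing `n i`
    (G : ι → Type*) [∀ i, AddCommGroup (G i)] [∀ i, Finite (G i)] (n : ι → ℕ) (hn : ∀ i, 0 < n i)
    -- fixed branch points `l i j`, with inertia generators `g i j`
    (r : ι → ℕ) (l : ∀ i, Fin (r i) → k) (hl : ∀ i, Function.Injective (l i))
    (g : ∀ i, Fin (r i) → G i)
    -- moving branch points `t s`, with inertia generators `h i s` which generate `G i`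
    (t : σ → k) (h : ∀ i, σ → G i) (hh : ∀ i, AddSubgroup.closure (Set.range (h i)) = ⊤)
    -- the `t`'s are algebraically independent over the field generated by all the `l i j`
    (ht : AlgebraicIndependent (IntermediateField.adjoin ℚ (⋃ i, Set.range (l i))) t)
    -- a finitely generated ring over which the curves are defined, a nonempty open set
    (A : Subalgebra ℤ k) (hA : A.FG) (f : ∀ i, (G i →+ ZMod (n i)) → A[X])
    (hf : ∀ i χ, (f i χ).map (algebraMap A k) =
      (∏ s, (X - C (t s)) ^ (χ (h i s)).val) * ∏ j, (X - C (l i j)) ^ (χ (g i j)).val)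
    (c : A) (hc : c ≠ 0) :
    (∃ N : ℕ, ∀ p : ℕ, N ≤ p → p.Prime → (∀ i, n i ∣ p - 1) →
      ∃ M : Ideal A, M.IsMaximal ∧ (p : A) ∈ M ∧ c ∉ M ∧ ∀ i, OrdinaryAt (h i) (g i) (f i) p M) ∧
    ∀ B : ℕ, ∃ p : ℕ, B < p ∧ p.Prime ∧
      ∃ M : Ideal A, M.IsMaximal ∧ (p : A) ∈ M ∧ c ∉ M ∧
        ∀ i, OrdinaryAt (h i) (g i) (f i) p M := by
  classical
  have hne : ∀ i, NeZero (n i) := fun i => ⟨(hn i).ne'⟩
  have hfin : ∀ i, Finite (G i →+ ZMod (n i)) := fun i => DFunLike.finite _
  let J := Σ i, {χ : G i →+ ZMod (n i) // χ ≠ 0}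
  have hJ : Fintype J := Fintype.ofFinite J
  have hset : (⋃ x : J, Set.range (l x.1)) ⊆ ⋃ i, Set.range (l i) := by
    intro z hz
    obtain ⟨x, hx⟩ := Set.mem_iUnion.1 hz
    exact Set.mem_iUnion.2 ⟨x.1, hx⟩
  -- every nontrivial character is ramified at a moving point
  have hs : ∀ x : J, ∃ s, (x.2.1 (h x.1 s)).val ≠ 0 := by
    rintro ⟨i, χ, hχ⟩
    by_contra hcon
    push Not at hcon
    apply hχ
    have h1 : ∀ s, χ (h i s) = 0 := fun s => (ZMod.val_eq_zero _).1 (hcon s)
    have h2 : AddSubgroup.closure (Set.range (h i)) ≤ χ.ker := by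
      rw [AddSubgroup.closure_le]
      rintro _ ⟨s, rfl⟩
      exact h1 s
    rw [hh i] at h2
    ext y
    exact h2 (AddSubgroup.mem_top y)
  obtain ⟨N, hN⟩ := Pool.Agent.R992.AC.main (ι := J) (σ := σ) (fun x => n x.1) (fun x => r x.1)
    (fun x => l x.1) (fun x => hl x.1)
    (fun x => Sum.elim (fun s => (x.2.1 (h x.1 s)).val) (fun j => (x.2.1 (g x.1 j)).val))
    (fun x a => by rcases a with s | j <;> exact ZMod.val_lt _) (fun x => hs x) t _ hset ht A hA
    (fun x => f x.1 x.2.1) (fun x => hf x.1 x.2.1) c hc
  have key : ∀ p : ℕ, N ≤ p → p.Prime → (∀ i, n i ∣ p - 1) →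
      ∃ M : Ideal A, M.IsMaximal ∧ (p : A) ∈ M ∧ c ∉ M ∧
        ∀ i, OrdinaryAt (h i) (g i) (f i) p M := by
    intro p hNp hp hpn
    obtain ⟨M, hM, hpM, hcM, hdet⟩ := hN p hNp hp (fun x => hpn x.1)
    refine ⟨M, hM, hpM, hcM, fun i χ hχ => ?_⟩
    have h1 := hdet ⟨i, χ, hχ⟩
    rw [Fintype.sum_sum_type] at h1
    exact h1
  refine ⟨⟨N, key⟩, fun B => ?_⟩
  obtain ⟨p, hp, hBp, hmod⟩ := Nat.exists_prime_gt_modEq_one (k := ∏ i, n i) (max N B)
    (Finset.prod_ne_zero_iff.2 fun i _ => (hn i).ne')
  refine ⟨p, lt_of_le_of_lt (le_max_right _ _) hBp, hp, key p ?_ hp fun i => ?_⟩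
  · exact ((le_max_left N B).trans hBp.le)
  · have h1 : (∏ i, n i) ∣ p - 1 := (Nat.modEq_iff_dvd' hp.one_le).1 hmod.symm
    exact (Finset.dvd_prod_of_mem n (Finset.mem_univ i)).trans h1

end Pool.Agent.Results.MP_adc574_ag.AbelianCovers
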