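import Pool.Agent.R905.OR.Real

/-!
# Dense ordinary reduction and smooth affine cubic hypersurfaces

`A` is a domain of characteristic zero which is finitely generated over `ℤ`, and `K` its fraction field.
For a separated `K`-scheme `X` of finite type and a closed point `s` in a suitable dense open subset of
`Spec A`, `T.H s X n` is the rigid cohomology with compact supports `H^n_c` of the fibre over `s` of a
model of `X`, with its linear Frobenius `φ` and its Hodge filtration `F`, over an algebraically closed
extension `E s` of the field of fractions of the Witt vectors of the residue field. `X` is ordinary at
`s` if the slope and Hodge filtrations of all these spaces are opposite; for smooth projective `X` this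
is ordinarity in the sense of Bloch and Kato, for all `s` in a dense open subset.
-/

set_option autoImplicit false

open AlgebraicGeometry Pool.Agent.R904.CU Pool.Agent.R905.WM Pool.Agent.R905.OR

namespace Pool.Agent.Results.MP_adc574_ag.CubicHypersurfaces

/-- Let `S` be a class of schemes such as the smooth projective varieties over the fraction field `K` of
`A`. The following are equivalent:
(1) for every `X` in `S` the closed points of `Spec A` at which `X` is ordinary are dense;
(2) the same for all separated schemes `X` of finite type over `K`;
(3) the same for all smooth hypersurfaces of degree at most three in affine spaces over `K`. -/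
theorem result (A : Type) [CommRing A] [IsDomain A] (K : Type) [Field K] [Algebra A K]
    [IsFractionRing A K] (E : MaximalSpectrum A → Type) [∀ s, Field (E s)]
    [∀ s, CharZero (E s)] [∀ s, IsAlgClosed (E s)] (val : ∀ s, AddValuation (E s) (WithTop ℝ))
    (T : FilteredCohomology K (MaximalSpectrum A) E)
    (hT : T.IsCohomology (openDense (MaximalSpectrum A))
      (fun s => (Nat.card (A ⧸ s.asIdeal) : E s)) val)
    (S : SchProp K) (hM : Models S) (hJ : T.Joint (openDense (MaximalSpectrum A)) val S) :
    [∀ X f, SepFinType K X f → S X f → Dense (T.Ord val X f),
     ∀ X f, SepFinType K X f → Dense (T.Ord val X f),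
     ∀ (σ : Type) [Fintype σ] (F : MvPolynomial σ K), IsSmoothCubic F →
       Dense (T.Ord val _ (hyp F))].TFAE :=
  FilteredCohomology.main_single hT dense_largeness hM hJ

end Pool.Agent.Results.MP_adc574_ag.CubicHypersurfaces
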