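import Pool.Agent.R410.OR.TD2
import Pool.Agent.R410.OR.Base2

/-!
# Dense ordinary reduction of hyperelliptic curves of codimension at most four in the moduli space

Let `k` be a field of characteristic `0` and `X : y² = ∏ (x - s)`, `s ∈ S`, a hyperelliptic curve of
genus `g` over `k`, where `S ⊂ k` has `2 g + 1` or `2 g + 2` elements. Every hyperelliptic curve over an
algebraically closed field has an equation with `|S| = 2 g + 1` (one branch point is moved to `∞`), and
then the moduli of `X` are the ratios `(s - a) / (b - a)`, for two fixed `a, b ∈ S`; the moduli space of
hyperelliptic curves has dimension `|S| - 2 = 2 g - 1`.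

**Theorem.** If at least `|S| - 6` of the ratios are algebraically independent over `ℚ` (for
`|S| = 2 g + 1`: the transcendence degree of the field of moduli of `X` is at least `2 g - 5`, so the
smallest subvariety over `ℚ` of the moduli space which contains `X` has codimension at most `4`), then
`X`, and the product of `X` with the Jacobians of any finite number of curves of genus at most two
over `k` (given by equations of the same form), have dense ordinary reduction: let `A ⊂ k` be a
finitely generated ring over which the curves are defined; every nonempty open subset of `Spec A`
contains a closed point at which the Hasse-Witt matrices of all the curves are invertible.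

In particular every hyperelliptic curve of genus three which is not isomorphic to a curve over the
field of algebraic numbers has dense ordinary reduction (`|S| = 7`, one transcendental ratio).

Proof.
* Valued fields of characteristic `p` (`R410/OR/Val3.lean`): if all the components of the semistable
  reduction of a hyperelliptic curve are ordinary, then the curve is ordinary (kernel of the Cartier
  operator, Gauss norms of all the discs given by two branch points).
* `R410/OR/Tr2.lean`: for a valuation ring of `K ⊃ S` with residue field of characteristic `0`, dense
  ordinary reduction of the components of the reduction implies dense ordinary reduction of the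
  curve.
* `R410/OR/G2a.lean` - `G2f.lean`, `Base2.lean`: let `p ≡ 1 mod 16` and let all the differences of the
  branch points be squares in `𝔽_p`; then a curve of genus `≤ 2` is ordinary. In genus two with a
  branch point at infinity: the second coefficient `c` of the `L`-polynomial satisfies `|c| ≤ 6 p`, it
  is not `6 p` (Weil's bound), it is congruent modulo `p` to the determinant of the Hasse-Witt matrix, and
  `c ≡ 6 mod 16`, which is proved by a count of the monic quadratic polynomials with square values at
  the branch points. (This is an elementary form of the argument of Katz and Ogus.) A finitely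
  generated domain has homomorphisms to such fields `𝔽_p`.
* `R410/OR/TD2.lean`: there is a valuation ring at which one of the independent ratios reduces to `0` and
  the others stay independent; all the components but one have genus `≤ 2`, and the last one, with
  the nodes as additional marked points, has again codimension at most `4`. Induction.
-/

set_option autoImplicit false

open Polynomial

universe u

namespace Pool.Agent.Results.MP_adc574_ag.ModuliCodimensionFour

/-- The Hasse-Witt (Cartier-Manin) matrix of `y² = f(x)`: the entry with indices `i, j` (from `0`)
is the coefficient of `x ^ (p (i + 1) - (j + 1))` in `f ^ ((p - 1) / 2)`, written as the coefficient of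
`x ^ (p (i + 1))` in `x ^ (j + 1) f ^ ((p - 1) / 2)`. For `f` squarefree of degree `2 g + 1` or `2 g + 2` over
a field of characteristic `p > 2` the curve is ordinary if and only if this matrix is invertible. -/
noncomputable def hasseWitt {R : Type*} [CommRing R] (p g : ℕ) (f : R[X]) :
    Matrix (Fin g) (Fin g) R :=
  Matrix.of fun i j => (X ^ ((j : ℕ) + 1) * f ^ ((p - 1) / 2)).coeff (p * ((i : ℕ) + 1))

theorem result {k : Type u} [Field k] [CharZero k]
    -- the curve `y² = ∏ (x - s)`, `s ∈ S`; at least `|S| - 6` of the ratios are independent
    (S : Finset k) {a b : k} (ha : a ∈ S) (hb : b ∈ S) (hab : a ≠ b) {T : ℕ} (s : Fin T → k)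
    (hs : ∀ i, s i ∈ S) (ht : AlgebraicIndependent ℚ fun i => (s i - a) / (b - a))
    (hcard : S.card ≤ T + 6)
    -- finitely many curves of genus at most two
    {ι : Type*} [Finite ι] (E : ι → Finset k) (hE : ∀ i, (E i).card ≤ 6)
    -- a finitely generated ring over which the curves are defined, a nonempty open set
    (A : Subalgebra ℤ k) (hA : A.FG)
    (F : A[X]) (hF : F.map (algebraMap A k) = ∏ x ∈ S, (X - C x))
    (G : ι → A[X]) (hG : ∀ i, (G i).map (algebraMap A k) = ∏ x ∈ E i, (X - C x))
    (c : A) (hc : c ≠ 0) :
    ∃ (p : ℕ) (M : Ideal A), p.Prime ∧ p ≠ 2 ∧ M.IsMaximal ∧ (p : A) ∈ M ∧ c ∉ M ∧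
      (hasseWitt p ((S.card - 1) / 2) (F.map (Ideal.Quotient.mk M))).det ≠ 0 ∧
      ∀ i, (hasseWitt p (((E i).card - 1) / 2) ((G i).map (Ideal.Quotient.mk M))).det ≠ 0 := by
  classical
  have hfin := Fintype.ofFinite ι
  let e : ι ≃ Fin (Fintype.card ι) := Fintype.equivFin ι
  have h1 := Pool.Agent.R410.OR.codim 2 (fun κ _ _ J _ R hR => Pool.Agent.R410.OR.base2 R hR) T k S S
    (Finset.Subset.refl S) a b ha hb hab s hs ht (by omega) (ULift.{u} (Fin (Fintype.card ι)))
    (fun i => E (e.symm i.down)) (fun i => hE _)
  obtain ⟨p, M, h2, h3, h4, h5, h6, h7⟩ := h1 A hA
    (fun o => o.elim F fun i => G (e.symm i.down)) (by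
      intro o
      cases o with
      | none => exact hF
      | some i => exact hG _) c hc
  refine ⟨p, M, h2, h3, h4, h5, h6, h7 none, fun i => ?_⟩
  obtain ⟨j, rfl⟩ := e.symm.surjective i
  exact h7 (some ⟨j⟩)

end Pool.Agent.Results.MP_adc574_ag.ModuliCodimensionFour
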