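import Pool.Agent.R992.MC.Cov

/-!
# Ordinary curves: coverings of the projective line with moving simple branch points

Let `C → P^1` be a (not necessarily Galois) tame covering of degree `n = m + 2 < p` over a field `K`
of odd characteristic `p`, with a simple branch point `t` which moves (there is a derivation `d` of
`K` with `d t = 1`, `d ^ p = 0`), all other branch points `b_0, …, b_r` being constants of `d`. If
`p > n (n - 1) (r - 1)`, then every exact regular differential form on `C` is invariant under the
transposition at `t`. In particular `C` is ordinary (there are no exact regular forms but `0`) if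

* the covering is indecomposable (there is no field between `K(x)` and the function field), or
* there are several moving simple branch points `t_i`, each with its own derivation, and only the
  functions in `K(x)` are invariant under all their transpositions.

A covering over a finitely generated field of characteristic zero, one of whose simple branch points
is transcendental over a field which contains the others, reduces for all large primes `p`
to such coverings. As ordinarity is open, the ordinary fibres of the curve over a finitely generated
ring are dense.

Proof. Let `f dx` be an exact regular form, `f = dF/dx`. The residue theorem for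
`D F · (dF/dx) dx` shows that the pole of `f` in `s = (x - t)^(1/2)` disappears (the form of
Kodaira and Spencer has rank one at a simple branch point). So the exact regular forms are stable
under `D`; as `D ^ p = 0`, they are spanned by those killed by `D`. For these the antisymmetric
part of the expansion at `t` vanishes to order `p`, which is impossible for a function of degree
bounded in terms of `n` and `r`, by the discriminant, unless it is zero.
-/

set_option autoImplicit false

namespace Pool.Agent.Results.MP_adc574_ag.MovingTranspositions

open Polynomial Pool.Agent.R992.MC

/-- **Exact regular differentials are invariant under moving transpositions; ordinary curves.** -/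
theorem result (p : ℕ) [Fact p.Prime] (hp2 : p ≠ 2) (K F L : Type) [Field K] [CharP K p]
    [Field F] [Field L] [Algebra K[X] F] [IsFractionRing K[X] F] [Algebra F L] [Algebra K[X] L]
    [IsScalarTower K[X] F L] [FiniteDimensional F L] [Algebra.IsSeparable F L]
    (m : ℕ) (hn : Module.finrank F L = m + 2) (hm : m + 2 < p) :
    -- exact regular forms are invariant under the transposition at `t`
    (∀ (r : ℕ) (S : Covering p K F L m r), (m + 2) * (m + 1) * (r - 1) < p →
      ∀ z : L, S.Regular (S.E z) → S.θ 0 (S.E z) = S.θ 1 (S.E z)) ∧
    -- the curve is ordinary if the covering is indecomposable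
    (∀ (r : ℕ) (S : Covering p K F L m r), (m + 2) * (m + 1) * (r - 1) < p →
      (∀ M : IntermediateField F L, M = ⊥ ∨ M = ⊤) →
      ∀ z : L, S.Regular (S.E z) → S.E z = 0) ∧
    -- the curve is ordinary if only `K(x)` is invariant under all moving transpositions
    (∀ (I : Type) (r : I → ℕ) (S : ∀ i, Covering p K F L m (r i)),
      (∀ i, (m + 2) * (m + 1) * (r i - 1) < p) →
      (∀ z : L, (∀ i, (S i).θ 0 z = (S i).θ 1 z) → z ∈ (algebraMap F L).range) →
      ∀ (E : Derivation ℤ L L), Nonempty I → (∀ i, (S i).E = E) →
      ∀ z : L, (∀ i, (S i).Regular (E z)) → E z = 0) := by
  have hp0 : 0 < p := (Fact.out : p.Prime).pos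
  have hnil : ∀ (r : ℕ) (S : Covering p K F L m r) (z : L), S.E^[p - 1] (S.E z) = 0 := by
    intro r S z
    rw [← Function.iterate_succ_apply, show (p - 1).succ = p by omega]
    exact nilpE (K := K) (F := F) p S.E S.E_C S.E_X z
  have h1 : ∀ (r : ℕ) (S : Covering p K F L m r), (m + 2) * (m + 1) * (r - 1) < p →
      ∀ z : L, S.Regular (S.E z) → S.θ 0 (S.E z) = S.θ 1 (S.E z) := by
    intro r S hr z hz
    exact (S.core hn hp2 hm hr).main (S.E z) ⟨hz.toReg, hnil r S z⟩
  have h2 : ∀ (r : ℕ) (S : Covering p K F L m r), (m + 2) * (m + 1) * (r - 1) < p →
      ∀ z : L, S.Regular (S.E z) → S.E z ∈ (algebraMap F L).range → S.E z = 0 := by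
    intro r S hr z hz hr'
    exact (S.core hn hp2 hm hr).range_zero (S.E z) ⟨hz.toReg, hnil r S z⟩ hr'
  refine ⟨h1, ?_, ?_⟩
  · intro r S hr hM z hz
    apply h2 r S hr z hz
    -- the field of invariants
    let Z : IntermediateField F L :=
      { carrier := {z | S.θ 0 z = S.θ 1 z}
        mul_mem' := by
          intro a b ha hb
          simp only [Set.mem_ofPred_eq] at ha hb ⊢
          rw [map_mul, map_mul, ha, hb]
        one_mem' := by
          change S.θ 0 1 = S.θ 1 1
          rw [map_one, map_one]
        add_mem' := by
          intro a b ha hb
          simp only [Set.mem_ofPred_eq] at ha hb ⊢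
          rw [map_add, map_add, ha, hb]
        zero_mem' := by
          change S.θ 0 0 = S.θ 1 0
          rw [map_zero, map_zero]
        algebraMap_mem' := fun e => F_agree _ _ (fun P => by rw [S.θ_P, S.θ_P]) e
        inv_mem' := by
          intro a ha
          simp only [Set.mem_ofPred_eq] at ha ⊢
          rw [map_inv₀, map_inv₀, ha] }
    have hmem : S.E z ∈ Z := h1 r S hr z hz
    rcases hM Z with h | h
    · rw [h, IntermediateField.mem_bot] at hmem
      obtain ⟨e, he⟩ := hmem
      exact ⟨e, he⟩
    · exfalso
      have h01 : (0 : Fin (m + 2)) ≠ 1 := by
        intro h
        have := congrArg Fin.val h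
        simp at this
      apply h01
      apply S.θ_inj
      ext1 y
      have hy : y ∈ Z := by rw [h]; exact IntermediateField.mem_top
      exact hy
  · intro I r S hr hinv E hI hE z hz
    obtain ⟨i⟩ := hI
    have h3 := h2 (r i) (S i) (hr i) z
    rw [hE i] at h3
    apply h3 (hz i)
    apply hinv
    intro j
    have h4 := h1 (r j) (S j) (hr j) z
    rw [hE j] at h4
    exact h4 (hz j)

end Pool.Agent.Results.MP_adc574_ag.MovingTranspositions
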